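import Mathlib
import Pool.Agent.H58.Shadow

set_option autoImplicit false

namespace Pool.Agent.Results.MP_0764b2_an.Disproof

open Pool.Agent.H58.Shadow BoundedContinuousFunction

/-- The shadowing property, as in the problem file (`c` is any bound of the `‖z n‖`). -/
def Shadowing {𝕜 : Type} [RCLike 𝕜] {Y : Type} [NormedAddCommGroup Y] [NormedSpace 𝕜 Y]
    (T : Y ≃L[𝕜] Y) : Prop :=
  ∃ K : ℝ, 0 < K ∧ ∀ (z : ℤ → Y) (c : ℝ), (∀ n, ‖z n‖ ≤ c) →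
    ∃ y : ℤ → Y, (∀ n, y (n + 1) - T (y n) = z n) ∧ ∀ n, ‖y n‖ ≤ K * c

/-- Generalized hyperbolicity, as in the problem file. -/
def GenHyp {𝕜 : Type} [RCLike 𝕜] {Y : Type} [NormedAddCommGroup Y] [NormedSpace 𝕜 Y]
    (T : Y ≃L[𝕜] Y) : Prop :=
  ∃ M N : Submodule 𝕜 Y, IsClosed (M : Set Y) ∧ IsClosed (N : Set Y) ∧ IsCompl M N ∧
    ∃ (hM : ∀ x ∈ M, (T : Y →L[𝕜] Y) x ∈ M) (hN : ∀ x ∈ N, (T.symm : Y →L[𝕜] Y) x ∈ N),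
      spectralRadius 𝕜 ((T : Y →L[𝕜] Y).restrict hM) < 1 ∧
      spectralRadius 𝕜 ((T.symm : Y →L[𝕜] Y).restrict hN) < 1

theorem result : ∀ (𝕜 : Type) [RCLike 𝕜],
    ∃ (X : Type) (_ : NormedAddCommGroup X) (_ : NormedSpace 𝕜 X) (_ : CompleteSpace X)
      (S : ℤ → X ≃L[𝕜] X),
      (∃ C : ℝ, ∀ n, ‖(S n : X →L[𝕜] X)‖ ≤ C ∧ ‖((S n).symm : X →L[𝕜] X)‖ ≤ C) ∧
      ∃ (B : Type) (_ : NormedAddCommGroup B) (_ : NormedSpace 𝕜 B) (_ : CompleteSpace B)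
        (ι : B →ₗ[𝕜] (ℤ → X)), Function.Injective ι ∧
        (∀ x : ℤ → X, (∃ C : ℝ, ∀ n, ‖x n‖ ≤ C) → ∃ b, ι b = x) ∧
        (∀ b, IsLUB (Set.range fun n => ‖ι b n‖) ‖b‖) ∧
        ∃ T : B ≃L[𝕜] B, (∀ b n, ι (T b) n = S (n + 1) (ι b (n + 1))) ∧
          Shadowing T ∧ ¬ GenHyp T := by
  intro 𝕜 _
  obtain ⟨E, _, _, _, q, -, h2, h3⟩ := exists_quot 𝕜
  obtain ⟨C, hC⟩ := S_bd q
  refine ⟨E × (ℕ →ᵇ 𝕜), inferInstance, inferInstance, inferInstance, S q, ⟨C, hC⟩,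
    ℤ →ᵇ E × (ℕ →ᵇ 𝕜), inferInstance, inferInstance, inferInstance,
    { toFun := fun b => b, map_add' := fun _ _ => rfl, map_smul' := fun _ _ => rfl },
    DFunLike.coe_injective, fun x ⟨D, hD⟩ => ⟨ofNormedAddCommGroupDiscrete x D hD, rfl⟩,
    fun b => ⟨?_, fun D hD => ?_⟩, shE (S q) C hC, fun _ _ => rfl,
    ⟨20, by norm_num, shadow (S q) _ (fun _ _ => rfl) 20 (solve q h2)⟩, ?_⟩
  · rintro _ ⟨n, rfl⟩
    exact b.norm_coe_le_norm n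
  · exact (norm_le ((norm_nonneg _).trans (hD ⟨0, rfl⟩))).2 fun n => hD ⟨n, rfl⟩
  · rintro ⟨M, N, a1, a2, a3, hM, hN, r1, r2⟩
    obtain ⟨R, hR⟩ := right_inv _ M N a1 a2 a3 hM hN r1 r2
    exact no_right q h3 _ (fun _ _ => rfl) R hR

end Pool.Agent.Results.MP_0764b2_an.Disproof
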